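import Pool.Agent.Helper77.Pent.Strat

/-!
# MP_cf73d8_co: the first player needs only one borrowed move

The game is the one of the problem: the players alternately claim new points of the plane, the first
player moves first. Stones `x 0, x 2, x 4, ...` belong to the first player, `x 1, x 3, ...` to the second
player; the regular pentagon has the vertices `exp (2 π i j / 5)`, as in the frozen statement `S11539`.

`result`: the first player has a strategy such that, whatever the second player does, after `k ≤ 6`
moves of each player there are two free points `u ≠ v` such that the `k` points of the first player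
together with `u` and `v` contain a congruent copy of the regular pentagon (so at least three vertices
of this copy are his and the others are free, and he is on move), while the second player
does not own a copy. In particular, if the first player may once in the game place two stones in one
turn, he is the first to own a regular pentagon, with at most eight stones.

Proof. `s1 = 0`; after `p1` choose `v` and let `s2 = v + v w`, where `w` is a fixed unit number which is
not a quotient of elements of `ℤ[ζ]`, `ζ = exp (2 π i / 5)`, and the direction `v` is such that no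
pentagon contains `p1` and a point `≠ 0` of `v ℤ[ζ] + v w ℤ[ζ]`. The second stone `p2` spoils at most
one of the two corners `v`, `v w` of the rhombus `0, v, v + v w, v w`, the third one at most one of the two
sides at the chosen corner. So there are two stones `P`, `P + h` in a lattice `P + h ℤ[ζ]` without
other stones, `h` a side vector. Now `P + h (1 + ζ)`, `P + h (1 - ζ^2)`, `P - h (ζ + ζ^2)`: the first
two moves produce three vertices of a pentagon with two free vertices, the third one two such pentagons
at once. The two forced answers are at distance more than `2`.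
-/

set_option autoImplicit false

namespace Pool.Agent.Results.MP_cf73d8_co.BorrowedMove

theorem result :
    ∃ σ : List ℂ → ℂ, ∀ x : ℕ → ℂ,
      (∀ n : ℕ, x (2 * n) = σ (List.ofFn (fun i : Fin (2 * n) => x (i : ℕ)))) →
      (∀ n : ℕ, ∀ i < 2 * n + 1, x (2 * n + 1) ≠ x i) →
      (∀ n : ℕ, ∀ i < 2 * n, x (2 * n) ≠ x i) ∧
      ∃ k ≤ 6, ∃ u v : ℂ, u ≠ v ∧ (∀ i < 2 * k, x i ≠ u ∧ x i ≠ v) ∧
        (∃ f : ℂ → ℂ, Isometry f ∧ ∀ j : Fin 5,
          f (Complex.exp (2 * (Real.pi : ℂ) * Complex.I * ((j : ℕ) : ℂ) / 5)) = u ∨
          f (Complex.exp (2 * (Real.pi : ℂ) * Complex.I * ((j : ℕ) : ℂ) / 5)) = v ∨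
          ∃ i < k, f (Complex.exp (2 * (Real.pi : ℂ) * Complex.I * ((j : ℕ) : ℂ) / 5)) =
            x (2 * i)) ∧
        ¬ ∃ f : ℂ → ℂ, Isometry f ∧ ∀ j : Fin 5, ∃ i < k,
          f (Complex.exp (2 * (Real.pi : ℂ) * Complex.I * ((j : ℕ) : ℂ) / 5)) =
            x (2 * i + 1) := by
  obtain ⟨σ, hσ⟩ := H77Pent.exists_strategy 6 H77Pent.win6
  refine ⟨σ, fun x hx hx' => ?_⟩
  obtain ⟨h1, k, hk, u, v, huv, huA, huB, hvA, hvB, ⟨f, hf, hfj⟩, hB⟩ := hσ x hx hx'
  refine ⟨h1, k, hk, u, v, huv, ?_, ⟨f, hf, ?_⟩, ?_⟩
  · intro i hi
    rcases Nat.even_or_odd' i with ⟨j, rfl | rfl⟩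
    · exact ⟨fun e => huA (H77Pent.mem_stA.2 ⟨j, by omega, e.symm⟩),
        fun e => hvA (H77Pent.mem_stA.2 ⟨j, by omega, e.symm⟩)⟩
    · exact ⟨fun e => huB (H77Pent.mem_stB.2 ⟨j, by omega, e.symm⟩),
        fun e => hvB (H77Pent.mem_stB.2 ⟨j, by omega, e.symm⟩)⟩
  · intro j
    have h2 := hfj j
    rw [List.mem_cons, List.mem_cons, H77Pent.mem_stA] at h2
    rw [H77Pent.exp_eq]
    exact h2
  · rintro ⟨g, hg, hgj⟩
    refine hB ⟨g, hg, fun j => ?_⟩
    obtain ⟨i, hi, e⟩ := hgj j
    rw [H77Pent.exp_eq] at e
    exact H77Pent.mem_stB.2 ⟨i, hi, e⟩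

end Pool.Agent.Results.MP_cf73d8_co.BorrowedMove
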